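import Pool.Agent.W203.BY.Stm

/-!
Part BY-ONE: continuity in each variable.
-/

set_option autoImplicit false

namespace Pool.Agent.W368.BY

open Pool.Agent.W203.BY Set

section mono

variable {I : Type} [LinearOrder I] {n : ℕ} (F : (Fin n → I) → I)

theorem mono_of (h : ∀ (x : Fin n → I) (i : Fin n), StrictMono (fun t => F (Function.update x i t))) :
    Monotone F := by
  intro y y' hy
  have key : ∀ s : Finset (Fin n), F y ≤ F (s.piecewise y' y) := by
    intro s
    induction s using Finset.induction_on with
    | empty => rw [Finset.piecewise_empty]
    | insert j s hj ih =>
      rw [Finset.piecewise_insert]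
      refine ih.trans ?_
      have h2 := (h (s.piecewise y' y) j).monotone (hy j)
      have h3 : Function.update (s.piecewise y' y) j (y j) = s.piecewise y' y := by
        have h4 : y j = s.piecewise y' y j := (Finset.piecewise_eq_of_notMem _ _ _ hj).symm
        rw [h4, Function.update_eq_self]
      simp only [h3] at h2
      exact h2
  have h1 := key Finset.univ
  rw [Finset.piecewise_univ] at h1
  exact h1

theorem strict_of
    (h : ∀ (x : Fin n → I) (i : Fin n), StrictMono (fun t => F (Function.update x i t)))
    (y y' : Fin n → I) (hy : y ≤ y') (j : Fin n) (hj : y j < y' j) : F y < F y' := by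
  have h1 : F y < F (Function.update y j (y' j)) := by
    have h2 := h y j hj
    simp only [Function.update_eq_self] at h2
    exact h2
  refine h1.trans_le (mono_of F h ?_)
  intro k
  rcases eq_or_ne k j with rfl | hk
  · rw [Function.update_self]
  · rw [Function.update_of_ne hk]
    exact hy k

end mono

section op

variable {I : Type} [LinearOrder I] {n : ℕ} (hn : 2 ≤ n) (F : (Fin n → I) → I)
  (hr : ∀ x : I, F (fun _ => x) = x)
  (hb : ∀ M : Fin n → Fin n → I, F (fun i => F (M i)) = F (fun j => F (fun i => M i j)))
  (hm : ∀ (x : Fin n → I) (i : Fin n), StrictMono (fun t => F (Function.update x i t)))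

/-- the binary operation -/
def GG (i : Fin n) (s t : I) : I := F (Function.update (fun _ => t) i s)

include hn hr hb hm in
theorem op (i : Fin n) : Op (GG F i) := by
  refine ⟨?_, ?_, ?_, ?_⟩
  · intro x
    have h : Function.update (fun _ : Fin n => x) i x = fun _ => x := Function.update_eq_self i _
    rw [GG, h, hr]
  · intro x y u v
    have h := hb (fun k => if k = i then Function.update (fun _ => y) i x
      else Function.update (fun _ => v) i u)
    have h1 : (fun k => F ((fun k => if k = i then Function.update (fun _ => y) i x
        else Function.update (fun _ => v) i u) k)) =
        Function.update (fun _ => GG F i u v) i (GG F i x y) := by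
      funext k
      rcases eq_or_ne k i with rfl | hk
      · rw [Function.update_self]
        simp only [if_true]
        rfl
      · rw [Function.update_of_ne hk]
        simp only [if_neg hk]
        rfl
    have h2 : (fun j => F (fun k => (fun k => if k = i then Function.update (fun _ => y) i x
        else Function.update (fun _ => v) i u) k j)) =
        Function.update (fun _ => GG F i y v) i (GG F i x u) := by
      funext j
      rcases eq_or_ne j i with rfl | hj
      · rw [Function.update_self, GG]
        congr 1
        funext k
        rcases eq_or_ne k j with rfl | hk
        · simp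
        · simp [hk]
      · rw [Function.update_of_ne hj, GG]
        congr 1
        funext k
        rcases eq_or_ne k i with rfl | hk
        · simp [hj]
        · simp [hk, hj]
    rw [h1, h2] at h
    exact h
  · intro y
    exact hm (fun _ => y) i
  · intro x s t hst
    have : ∃ j : Fin n, j ≠ i := by
      haveI : Nontrivial (Fin n) := Fin.nontrivial_iff_two_le.2 hn
      exact exists_ne i
    obtain ⟨j, hj⟩ := this
    refine strict_of F hm _ _ ?_ j ?_
    · intro k
      rcases eq_or_ne k i with rfl | hk
      · rw [Function.update_self, Function.update_self]
      · rw [Function.update_of_ne hk, Function.update_of_ne hk]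
        exact hst.le
    · rw [Function.update_of_ne hj, Function.update_of_ne hj]
      exact hst

include hr hb in
theorem HG (x : Fin n → I) (i : Fin n) (s t : I) :
    F (Function.update x i (GG F i s t)) =
      GG F i (F (Function.update x i s)) (F (Function.update x i t)) := by
  have h := hb (fun k => if k = i then Function.update x i s else Function.update x i t)
  have h1 : (fun k => F ((fun k => if k = i then Function.update x i s
      else Function.update x i t) k)) =
      Function.update (fun _ => F (Function.update x i t)) i (F (Function.update x i s)) := by
    funext k
    rcases eq_or_ne k i with rfl | hk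
    · rw [Function.update_self]
      simp only [if_true]
    · rw [Function.update_of_ne hk]
      simp only [if_neg hk]
  have h2 : (fun j => F (fun k => (fun k => if k = i then Function.update x i s
      else Function.update x i t) k j)) = Function.update x i (GG F i s t) := by
    funext j
    rcases eq_or_ne j i with rfl | hj
    · rw [Function.update_self, GG]
      congr 1
      funext k
      rcases eq_or_ne k j with rfl | hk
      · simp
      · simp [hk]
    · rw [Function.update_of_ne hj]
      have h3 : (fun k => (fun k => if k = i then Function.update x i s
          else Function.update x i t) k j) = fun _ => x j := by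
        funext k
        rcases eq_or_ne k i with rfl | hk
        · simp [hj]
        · simp [hk, hj]
      rw [h3, hr]
  rw [h1, h2] at h
  exact h.symm

include hr hb in
theorem HG_iter (x : Fin n → I) (i : Fin n) (z : I) (m : ℕ) (y : I) :
    F (Function.update x i ((fun s => GG F i s z)^[m] y)) =
      (fun s => GG F i s (F (Function.update x i z)))^[m] (F (Function.update x i y)) := by
  induction m with
  | zero => rfl
  | succ m ih =>
    rw [Function.iterate_succ_apply', Function.iterate_succ_apply', HG F hr hb, ih]

include hn hr hb hm in
theorem iter_gt (i : Fin n) (z y : I) (hy : z < y) (m : ℕ) :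
    z < (fun s => GG F i s z)^[m] y := by
  have hop := op hn F hr hb hm i
  induction m with
  | zero => exact hy
  | succ m ih =>
    rw [Function.iterate_succ_apply']
    have h := hop.m1 z ih
    simp only [hop.refl] at h
    exact h

include hn hr hb hm in
theorem iter_lt (i : Fin n) (z y : I) (hy : y < z) (m : ℕ) :
    (fun s => GG F i s z)^[m] y < z := by
  have hop := op hn F hr hb hm i
  induction m with
  | zero => exact hy
  | succ m ih =>
    rw [Function.iterate_succ_apply']
    have h := hop.m1 z ih
    simp only [hop.refl] at h
    exact h

end op

theorem t_ONE (h : S_LIM) : S_ONE := by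
  intro a b n hn F hr hb hm x i
  rw [continuous_iff_continuousAt]
  intro z
  rw [continuousAt_iff_continuous_left_right]
  have hop := op hn F hr hb hm i
  constructor
  · by_cases hz : ∃ y : Icc a b, y < z
    · obtain ⟨y, hy⟩ := hz
      refine ((hm x i).strictMonoOn univ).continuousWithinAt_left_of_exists_between
        Filter.univ_mem ?_
      intro c hc
      obtain ⟨m, hmm⟩ := (h a b (GG F i) hop (F (Function.update x i z))
        (F (Function.update x i y)) c).2 hc (hm x i hy)
      refine ⟨(fun s => GG F i s z)^[m] y, mem_univ _, ?_, ?_⟩
      · show c ≤ F (Function.update x i ((fun s => GG F i s z)^[m] y))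
        rw [HG_iter F hr hb]
        exact hmm.le
      · exact hm x i (iter_lt hn F hr hb hm i z y hy m)
    · push Not at hz
      have : Iic z = {z} := by
        ext y
        simp only [mem_Iic, mem_singleton_iff]
        exact ⟨fun h => le_antisymm h (hz y), fun h => h.le⟩
      rw [this]
      exact continuousWithinAt_singleton
  · by_cases hz : ∃ y : Icc a b, z < y
    · obtain ⟨y, hy⟩ := hz
      refine ((hm x i).strictMonoOn univ).continuousWithinAt_right_of_exists_between
        Filter.univ_mem ?_
      intro c hc
      obtain ⟨m, hmm⟩ := (h a b (GG F i) hop (F (Function.update x i z))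
        (F (Function.update x i y)) c).1 hc (hm x i hy)
      refine ⟨(fun s => GG F i s z)^[m] y, mem_univ _, ?_, ?_⟩
      · exact hm x i (iter_gt hn F hr hb hm i z y hy m)
      · show F (Function.update x i ((fun s => GG F i s z)^[m] y)) ≤ c
        rw [HG_iter F hr hb]
        exact hmm.le
    · push Not at hz
      have : Ici z = {z} := by
        ext y
        simp only [mem_Ici, mem_singleton_iff]
        exact ⟨fun h => le_antisymm (hz y) h, fun h => h.ge⟩
      rw [this]
      exact continuousWithinAt_singleton

end Pool.Agent.W368.BY
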